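import Mathlib
import Pool.Agent.MP_565547_al.H26.Main

namespace Pool.Agent.Results.MP_565547_al.LogBound

theorem result :
    ∃ a b : ℝ, ∀ (p n : ℕ) (G : Type) [Group G] [Finite G], p.Prime → 2 ≤ n →
      Nat.card G = p ^ n → Group.nilpotencyClass G = n - 1 →
      ∃ d : ℕ, IsLeast {e : ℕ | derivedSeries G e = ⊥} d ∧
        (d : ℝ) ≤ a * Real.log (((fun i : ℕ => (⁅(⊤ : Subgroup G).lowerCentralSeries i,
          (⊤ : Subgroup G).lowerCentralSeries i⁆ : Subgroup G)) '' {i | i < n}).ncard) + b := by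
  classical
  refine ⟨6, 9, fun p n G _ _ hp _ hG hc => ?_⟩
  have : Fact p.Prime := ⟨hp⟩
  have h := Pool.Agent.MP_565547_al.H26.main hG hc
  have hex : ∃ e, derivedSeries G e = ⊥ := ⟨_, h⟩
  refine ⟨Nat.find hex, ⟨Nat.find_spec hex, fun e he => Nat.find_min' hex he⟩, ?_⟩
  have h1 := Nat.find_min' hex h
  generalize ((fun i : ℕ => (⁅(⊤ : Subgroup G).lowerCentralSeries i,
          (⊤ : Subgroup G).lowerCentralSeries i⁆ : Subgroup G)) '' {i | i < n}).ncard = s at h1 ⊢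
  have h2 : (Nat.find hex : ℝ) ≤ 4 * (Nat.log 2 s : ℝ) + 9 := by exact_mod_cast h1
  have h3 : (Nat.log 2 s : ℝ) ≤ Real.log s / Real.log 2 := by
    simpa [Real.logb] using Real.natLog_le_logb s 2
  have h4 := Real.log_two_gt_d9
  have h5 := Real.log_natCast_nonneg s
  rw [le_div_iff₀ (by linarith)] at h3
  have h6 : (0 : ℝ) ≤ Nat.log 2 s := Nat.cast_nonneg _
  nlinarith

end Pool.Agent.Results.MP_565547_al.LogBound
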